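import Pool.Agent.H16.CX.Basic

/-!
# Fixed points in closed invariant sets (`T_FIX`)
-/

set_option autoImplicit false

open Set Topology Filter MeasureTheory

namespace Pool.Agent.H65.CXS

open Pool.Agent.H16.CX

theorem pf_fix (h1 : T_IND) (h2 : T_ZED) (h3 : T_SWP) (h4 : T_TWI) (h5 : T_TWG) (h6 : T_ORD) :
    T_FIX := by
  intro X _ _ _ _ R Z hc hne hi
  obtain ⟨w, hw, hind⟩ := h1 X R Z hc hne hi
  obtain ⟨z, hz, hzZ⟩ := h2 X R Z w hc hi hw hind
  by_cases hfix : ∀ g : Equiv.Perm ℕ, R.res (pe g) w = w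
  · exact Or.inl ⟨w, hw, hfix⟩
  · right
    obtain ⟨p, hp⟩ : ∃ p : ℕ, R.res (pe (Equiv.swap p (p + 1))) w ≠ w := by
      by_contra hcon
      push Not at hcon
      exact hfix (h3 X R w hcon)
    obtain ⟨L, hL, hinf, hclo, hiso⟩ := h6
    refine ⟨fun s => z (L s), Continuous.measurable ?_, fun s t hst => ?_⟩
    · rw [Metric.continuous_iff']
      intro s ε hε
      obtain ⟨n, hn⟩ := hz.unif (ε / 2) (by positivity)
      have h7 : ∀ᶠ t in 𝓝 s, ∀ i < n, ∀ j < n, (L t i j ↔ L s i j) := by
        refine ((Set.finite_lt_nat n).eventually_all (l := 𝓝 s)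
          (p := fun i t => ∀ j < n, (L t i j ↔ L s i j))).2 fun i _ => ?_
        refine ((Set.finite_lt_nat n).eventually_all (l := 𝓝 s)
          (p := fun j t => (L t i j ↔ L s i j))).2 fun j _ => ?_
        by_cases hs : L s i j
        · filter_upwards [(hclo i j).isOpen.mem_nhds (show s ∈ {s | L s i j} from hs)] with t ht
          exact ⟨fun _ => hs, fun _ => ht⟩
        · filter_upwards [(hclo i j).compl.isOpen.mem_nhds
            (show s ∈ {s | L s i j}ᶜ from hs)] with t ht
          exact ⟨fun h => absurd h ht, fun h => absurd h hs⟩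
      filter_upwards [h7] with t ht
      have h8 := hn (L t) (L s) (hL t) (hL s) ht
      linarith
    · rintro ⟨g, hg⟩
      refine hst (hiso t s g fun a b hab => ?_).symm
      rw [← h4 X R w z hz p hp (L t) (hL t) (hinf t) a b hab,
        ← h4 X R w z hz p hp (L s) (hL s) (hinf s) (g a) (g b) (fun h => hab (g.injective h)),
        ← h5 X R (z (L s)) g a b, hg]

end Pool.Agent.H65.CXS
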