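import Pool.Agent.H16.CX.Targets

/-!
# Perfectly many linear orders with pairwise non-isomorphic adjacency graphs (`T_ORD`)

The elements are the rational numbers. The rational number `⟨i, j⟩` (a natural number, the code of the
pair) with `j < i + 2` is moved to the place `⟨i, 0⟩` if `s i` is true, and the elements of this place are
ordered by `j`. So the components of the adjacency graph are single points and, for all `i` such that `s i`
is true, one path with `i + 2` points.
-/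

set_option autoImplicit false

open Set Topology Filter MeasureTheory

namespace Pool.Agent.H65.CXS

open Pool.Agent.H16.CX

/-- the rational number with code `(i, j)` -/
def nd (i j : ℕ) : ℚ := ((Nat.pair i j : ℕ) : ℚ)

theorem nd_inj {i j i' j' : ℕ} (h : nd i j = nd i' j') : i = i' ∧ j = j' := by
  unfold nd at h
  have h1 : Nat.pair i j = Nat.pair i' j' := by exact_mod_cast h
  exact Nat.pair_eq_pair.1 h1

/-- active elements -/
def Act (s : ℕ → Bool) (q : ℚ) : Prop := ∃ i j, s i = true ∧ j < i + 2 ∧ q = nd i j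

/-- the block of an element -/
def bl (q : ℚ) : ℕ := (Nat.unpair ⌊q⌋₊).1

/-- the index of an element -/
def ix (q : ℚ) : ℕ := (Nat.unpair ⌊q⌋₊).2

theorem bl_nd (i j : ℕ) : bl (nd i j) = i := by
  unfold bl nd
  rw [Nat.floor_natCast, Nat.unpair_pair]

theorem ix_nd (i j : ℕ) : ix (nd i j) = j := by
  unfold ix nd
  rw [Nat.floor_natCast, Nat.unpair_pair]

open Classical in
/-- the place, depending on the value of `s` at the block -/
noncomputable def pl (v : Bool) (q : ℚ) : ℚ :=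
  if v = true ∧ q = nd (bl q) (ix q) ∧ ix q < bl q + 2 then nd (bl q) 0 else q

open Classical in
/-- the index at the place -/
noncomputable def jx (v : Bool) (q : ℚ) : ℕ :=
  if v = true ∧ q = nd (bl q) (ix q) ∧ ix q < bl q + 2 then ix q else 0

/-- the place -/
noncomputable def P (s : ℕ → Bool) (q : ℚ) : ℚ := pl (s (bl q)) q

/-- the index at the place -/
noncomputable def J (s : ℕ → Bool) (q : ℚ) : ℕ := jx (s (bl q)) q

theorem PJ_nd {s : ℕ → Bool} {i j : ℕ} (hs : s i = true) (hj : j < i + 2) :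
    P s (nd i j) = nd i 0 ∧ J s (nd i j) = j := by
  unfold P J pl jx
  rw [bl_nd, ix_nd, if_pos ⟨hs, rfl, hj⟩, if_pos ⟨hs, rfl, hj⟩]
  exact ⟨rfl, rfl⟩

theorem PJ_not {s : ℕ → Bool} {q : ℚ} (h : ¬ Act s q) : P s q = q ∧ J s q = 0 := by
  unfold P J pl jx
  have h1 : ¬ (s (bl q) = true ∧ q = nd (bl q) (ix q) ∧ ix q < bl q + 2) := by
    rintro ⟨h2, h3, h4⟩
    exact h ⟨bl q, ix q, h2, h4, h3⟩
  rw [if_neg h1, if_neg h1]
  exact ⟨rfl, rfl⟩

theorem PJ_inj {s : ℕ → Bool} {q q' : ℚ} (h1 : P s q = P s q') (h2 : J s q = J s q') : q = q' := by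
  by_cases h : Act s q
  · obtain ⟨i, j, hs, hj, rfl⟩ := h
    rw [(PJ_nd hs hj).1] at h1
    rw [(PJ_nd hs hj).2] at h2
    by_cases h' : Act s q'
    · obtain ⟨i', j', hs', hj', rfl⟩ := h'
      rw [(PJ_nd hs' hj').1] at h1
      rw [(PJ_nd hs' hj').2] at h2
      rw [(nd_inj h1).1, h2]
    · rw [(PJ_not h').1] at h1
      exact absurd ⟨i, 0, hs, by omega, h1.symm⟩ h'
  · rw [(PJ_not h).1] at h1
    rw [(PJ_not h).2] at h2
    by_cases h' : Act s q'
    · obtain ⟨i', j', hs', hj', rfl⟩ := h'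
      rw [(PJ_nd hs' hj').1] at h1
      exact absurd ⟨i', 0, hs', by omega, h1⟩ h
    · rw [(PJ_not h').1] at h1
      exact h1

/-- the order of the rational numbers -/
def Lt (s : ℕ → Bool) (q q' : ℚ) : Prop := P s q < P s q' ∨ (P s q = P s q' ∧ J s q < J s q')

theorem Lt.irr {s : ℕ → Bool} {q : ℚ} : ¬ Lt s q q := by
  rintro (h | ⟨-, h⟩)
  · exact lt_irrefl _ h
  · exact lt_irrefl _ h

theorem Lt.tr {s : ℕ → Bool} {q q' q'' : ℚ} (h : Lt s q q') (h' : Lt s q' q'') : Lt s q q'' := by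
  rcases h with h | ⟨h, h1⟩
  · rcases h' with h' | ⟨h', h1'⟩
    · exact Or.inl (h.trans h')
    · exact Or.inl (h' ▸ h)
  · rcases h' with h' | ⟨h', h1'⟩
    · exact Or.inl (h ▸ h')
    · exact Or.inr ⟨h.trans h', h1.trans h1'⟩

theorem Lt.tot {s : ℕ → Bool} {q q' : ℚ} (h : q ≠ q') : Lt s q q' ∨ Lt s q' q := by
  rcases lt_trichotomy (P s q) (P s q') with h1 | h1 | h1
  · exact Or.inl (Or.inl h1)
  · rcases lt_trichotomy (J s q) (J s q') with h2 | h2 | h2
    · exact Or.inl (Or.inr ⟨h1, h2⟩)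
    · exact absurd (PJ_inj h1 h2) h
    · exact Or.inr (Or.inr ⟨h1.symm, h2⟩)
  · exact Or.inr (Or.inl h1)

/-- numbers strictly between two consecutive integers are not active -/
theorem not_act {s : ℕ → Bool} {z : ℚ} {m : ℤ} (h1 : (m : ℚ) < z) (h2 : z < m + 1) : ¬ Act s z := by
  rintro ⟨i, j, -, -, rfl⟩
  unfold nd at h1 h2
  have h3 : m < (Nat.pair i j : ℤ) := by exact_mod_cast h1
  have h4 : (Nat.pair i j : ℤ) < m + 1 := by exact_mod_cast h2
  omega

theorem exists_between_not_act (s : ℕ → Bool) {x y : ℚ} (h : x < y) :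
    ∃ z, x < z ∧ z < y ∧ ¬ Act s z := by
  have h1 : (⌊x⌋ : ℚ) ≤ x := Int.floor_le x
  have h2 : x < ⌊x⌋ + 1 := Int.lt_floor_add_one x
  obtain ⟨z, h3, h4⟩ := exists_between (lt_min h h2)
  exact ⟨z, h3, h4.trans_le (min_le_left _ _),
    not_act (m := ⌊x⌋) (h1.trans_lt h3) (h4.trans_le (min_le_right _ _))⟩

/-- nothing lies between -/
def Ad (s : ℕ → Bool) (q q' : ℚ) : Prop := ¬ ∃ z, (Lt s q z ∧ Lt s z q') ∨ (Lt s q' z ∧ Lt s z q)

theorem Ad.symm {s : ℕ → Bool} {q q' : ℚ} (h : Ad s q q') : Ad s q' q := by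
  rintro ⟨z, hz⟩
  exact h ⟨z, hz.symm⟩

theorem ad_of_lt {s : ℕ → Bool} {q q' : ℚ} (h : Ad s q q') (hl : Lt s q q') :
    ∃ i j, s i = true ∧ j + 1 < i + 2 ∧ q = nd i j ∧ q' = nd i (j + 1) := by
  rcases hl with h1 | ⟨h1, h2⟩
  · exfalso
    obtain ⟨z, h3, h4, h5⟩ := exists_between_not_act s h1
    refine h ⟨z, Or.inl ⟨Or.inl ?_, Or.inl ?_⟩⟩
    · rw [(PJ_not h5).1]
      exact h3
    · rw [(PJ_not h5).1]
      exact h4
  · by_cases h' : Act s q'
    · obtain ⟨i, j', hs, hj', rfl⟩ := h'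
      rw [(PJ_nd hs hj').1] at h1
      rw [(PJ_nd hs hj').2] at h2
      by_cases h0 : Act s q
      · obtain ⟨i2, j, hs2, hj, rfl⟩ := h0
        rw [(PJ_nd hs2 hj).1] at h1
        rw [(PJ_nd hs2 hj).2] at h2
        have h3 := (nd_inj h1).1
        subst h3
        by_cases h4 : j + 1 = j'
        · exact ⟨i2, j, hs, by omega, rfl, by rw [h4]⟩
        · exfalso
          have h5 : j + 1 < i2 + 2 := by omega
          refine h ⟨nd i2 (j + 1), Or.inl ⟨Or.inr ?_, Or.inr ?_⟩⟩
          · rw [(PJ_nd hs hj).1, (PJ_nd hs hj).2, (PJ_nd hs h5).1, (PJ_nd hs h5).2]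
            exact ⟨rfl, by omega⟩
          · rw [(PJ_nd hs hj').1, (PJ_nd hs hj').2, (PJ_nd hs h5).1, (PJ_nd hs h5).2]
            exact ⟨rfl, by omega⟩
      · rw [(PJ_not h0).1] at h1
        exact absurd ⟨i, 0, hs, by omega, h1⟩ h0
    · rw [(PJ_not h').2] at h2
      omega

theorem ad_nd {s : ℕ → Bool} {i j : ℕ} (hs : s i = true) (hj : j + 1 < i + 2) :
    Ad s (nd i j) (nd i (j + 1)) := by
  have h1 := PJ_nd hs hj
  have h2 := PJ_nd hs (show j < i + 2 by omega)
  rintro ⟨z, ⟨h3, h4⟩ | ⟨h3, h4⟩⟩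
  · unfold Lt at h3 h4
    rw [h2.1, h2.2] at h3
    rw [h1.1, h1.2] at h4
    rcases h3 with h3 | ⟨h3, h3'⟩
    · rcases h4 with h4 | ⟨h4, h4'⟩
      · exact lt_irrefl _ (h3.trans h4)
      · exact h3.ne h4.symm
    · rcases h4 with h4 | ⟨h4, h4'⟩
      · exact h4.ne h3.symm
      · omega
  · unfold Lt at h3 h4
    rw [h1.1, h1.2] at h3
    rw [h2.1, h2.2] at h4
    rcases h3 with h3 | ⟨h3, h3'⟩
    · rcases h4 with h4 | ⟨h4, h4'⟩
      · exact lt_irrefl _ (h3.trans h4)
      · exact h3.ne h4.symm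
    · rcases h4 with h4 | ⟨h4, h4'⟩
      · exact h4.ne h3.symm
      · omega

/-- closed under adjacency -/
def Cl (s : ℕ → Bool) (S : Finset ℚ) : Prop := ∀ q ∈ S, ∀ q', q ≠ q' → Ad s q q' → q' ∈ S

/-- there is a component with `n` elements -/
def Cmp (s : ℕ → Bool) (n : ℕ) : Prop := ∃ S : Finset ℚ, S.card = n ∧ S.Nonempty ∧ Cl s S ∧
  ∀ T : Finset ℚ, T ⊆ S → T.Nonempty → Cl s T → T = S

/-- the elements of the block `i` -/
def Gr (i : ℕ) : Finset ℚ := (Finset.range (i + 2)).image (nd i)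

theorem mem_Gr {i : ℕ} {q : ℚ} : q ∈ Gr i ↔ ∃ j < i + 2, nd i j = q := by
  unfold Gr
  simp only [Finset.mem_image, Finset.mem_range]

theorem card_Gr (i : ℕ) : (Gr i).card = i + 2 := by
  unfold Gr
  rw [Finset.card_image_of_injective _ fun a b h => (nd_inj h).2, Finset.card_range]

theorem nd_ne (i j : ℕ) : nd i j ≠ nd i (j + 1) := fun h => by
  have := (nd_inj h).2
  omega

theorem Gr_sub {s : ℕ → Bool} {i : ℕ} (hs : s i = true) {T : Finset ℚ} (hT : Cl s T) {j : ℕ}
    (hj : j < i + 2) (h : nd i j ∈ T) : Gr i ⊆ T := by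
  have down : ∀ k, k ≤ j → nd i (j - k) ∈ T := by
    intro k
    induction k with
    | zero => exact fun _ => h
    | succ k ih =>
      intro hk
      have h1 := ih (by omega)
      have h2 : j - k = (j - (k + 1)) + 1 := by omega
      rw [h2] at h1
      exact hT _ h1 _ (nd_ne _ _).symm (ad_nd hs (by omega)).symm
  have h0 : nd i 0 ∈ T := by
    have := down j le_rfl
    rwa [Nat.sub_self] at this
  have up : ∀ k, k < i + 2 → nd i k ∈ T := by
    intro k
    induction k with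
    | zero => exact fun _ => h0
    | succ k ih => exact fun hk => hT _ (ih (by omega)) _ (nd_ne _ _) (ad_nd hs hk)
  intro q hq
  obtain ⟨k, hk, rfl⟩ := mem_Gr.1 hq
  exact up k hk

theorem cl_Gr {s : ℕ → Bool} {i : ℕ} : Cl s (Gr i) := by
  intro q hq q' hne had
  obtain ⟨j, hj, rfl⟩ := mem_Gr.1 hq
  rcases Lt.tot (s := s) hne with h | h
  · obtain ⟨i', j', -, h1, h2, rfl⟩ := ad_of_lt had h
    obtain ⟨rfl, rfl⟩ := nd_inj h2
    exact mem_Gr.2 ⟨_, h1, rfl⟩
  · obtain ⟨i', j', -, h1, rfl, h2⟩ := ad_of_lt had.symm h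
    obtain ⟨rfl, rfl⟩ := nd_inj h2
    exact mem_Gr.2 ⟨_, by omega, rfl⟩

theorem cmp_iff {s : ℕ → Bool} (i : ℕ) : Cmp s (i + 2) ↔ s i = true := by
  constructor
  · rintro ⟨S, hc, ⟨q, hq⟩, hcl, hmin⟩
    by_cases h : Act s q
    · obtain ⟨i', j, hs, hj, rfl⟩ := h
      have h1 := Gr_sub hs hcl hj hq
      have h2 := hmin _ h1 ⟨nd i' j, mem_Gr.2 ⟨j, hj, rfl⟩⟩ cl_Gr
      rw [← h2, card_Gr] at hc
      have h3 : i' = i := by omega
      exact h3 ▸ hs
    · exfalso
      have h1 : Cl s {q} := by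
        intro q1 hq1 q' hne had
        rw [Finset.mem_singleton] at hq1
        subst hq1
        exfalso
        rcases Lt.tot (s := s) hne with h2 | h2
        · obtain ⟨i', j', h3, h4, h5, -⟩ := ad_of_lt had h2
          exact h ⟨i', j', h3, by omega, h5⟩
        · obtain ⟨i', j', h3, h4, -, h5⟩ := ad_of_lt had.symm h2
          exact h ⟨i', j' + 1, h3, h4, h5⟩
      have h2 := hmin {q} (Finset.singleton_subset_iff.2 hq) ⟨q, Finset.mem_singleton_self q⟩ h1
      rw [← h2, Finset.card_singleton] at hc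
      omega
  · intro hs
    refine ⟨Gr i, card_Gr i, ⟨nd i 0, mem_Gr.2 ⟨0, by omega, rfl⟩⟩, cl_Gr, fun T hT hne hcl => ?_⟩
    obtain ⟨q, hq⟩ := hne
    obtain ⟨j, hj, rfl⟩ := mem_Gr.1 (hT hq)
    exact Finset.Subset.antisymm hT (Gr_sub hs hcl hj hq)

/-- components are preserved by isomorphisms of the adjacency graphs -/
theorem cmp_of_iso {s t : ℕ → Bool} (g : Equiv.Perm ℚ)
    (h : ∀ a b, a ≠ b → (Ad s a b ↔ Ad t (g a) (g b))) {n : ℕ} (hn : Cmp s n) : Cmp t n := by
  obtain ⟨S, hc, ⟨q, hq⟩, hcl, hmin⟩ := hn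
  refine ⟨S.map g.toEmbedding, by rw [Finset.card_map, hc],
    ⟨g q, Finset.mem_map.2 ⟨q, hq, rfl⟩⟩, ?_, ?_⟩
  · intro a ha b hne had
    obtain ⟨a', ha', rfl⟩ := Finset.mem_map.1 ha
    have h1 : b = g (g.symm b) := (g.apply_symm_apply b).symm
    rw [h1] at hne had ⊢
    refine Finset.mem_map.2 ⟨g.symm b, ?_, rfl⟩
    have h2 : a' ≠ g.symm b := fun h3 => hne (by rw [h3]; rfl)
    exact hcl a' ha' _ h2 ((h a' _ h2).2 had)
  · intro T hT hne hclT
    have h1 : T.map g.symm.toEmbedding = S := by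
      apply hmin
      · intro a ha
        obtain ⟨b, hb, rfl⟩ := Finset.mem_map.1 ha
        obtain ⟨c, hc, h2⟩ := Finset.mem_map.1 (hT hb)
        have h3 : g.symm.toEmbedding b = c := by
          rw [← h2]
          exact g.symm_apply_apply c
        rw [h3]
        exact hc
      · obtain ⟨b, hb⟩ := hne
        exact ⟨_, Finset.mem_map.2 ⟨b, hb, rfl⟩⟩
      · intro a ha b hne had
        obtain ⟨c, hc, rfl⟩ := Finset.mem_map.1 ha
        refine Finset.mem_map.2 ⟨g b, ?_, g.symm_apply_apply b⟩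
        have h2 := (h _ _ hne).1 had
        have h3 : g (g.symm.toEmbedding c) = c := g.apply_symm_apply c
        rw [h3] at h2
        refine hclT c hc _ (fun h4 => hne ?_) h2
        rw [h4]
        exact g.symm_apply_apply b
    rw [← h1]
    ext a
    simp

theorem pf_ord : T_ORD := by
  let e : ℕ ≃ ℚ := (Denumerable.eqv ℚ).symm
  have hadj : ∀ s a b, Adj (fun a b => Lt s (e a) (e b)) a b ↔ Ad s (e a) (e b) := by
    intro s a b
    unfold Adj Ad
    refine not_congr ⟨?_, ?_⟩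
    · rintro ⟨d, hd⟩
      exact ⟨e d, hd⟩
    · rintro ⟨z, hz⟩
      refine ⟨e.symm z, ?_⟩
      simpa only [Equiv.apply_symm_apply] using hz
  refine ⟨fun s a b => Lt s (e a) (e b), ?_, ?_, ?_, ?_⟩
  · intro s
    exact ⟨fun a => Lt.irr, fun a b c h h' => h.tr h', fun a b h => Lt.tot fun h' =>
      h (e.injective h')⟩
  · intro s a
    have hM : ∃ M : ℤ, P s (e a) < M := exists_int_gt _
    have hM' : ∃ M : ℤ, (M : ℚ) < P s (e a) := exists_int_lt _
    obtain ⟨M, hM⟩ := hM
    obtain ⟨M', hM'⟩ := hM'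
    constructor
    · refine Set.infinite_of_injective_forall_mem (f := fun n : ℕ =>
        e.symm ((M : ℚ) + n + 1 / 2)) ?_ ?_
      · intro n n' h
        have h1 := e.symm.injective h
        have h2 : (n : ℚ) = n' := by linarith
        exact_mod_cast h2
      · intro n
        have h1 : ¬ Act s ((M : ℚ) + n + 1 / 2) := by
          refine not_act (m := M + n) ?_ ?_
          · push_cast
            linarith
          · push_cast
            linarith
        refine Or.inl ?_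
        rw [Equiv.apply_symm_apply, (PJ_not h1).1]
        have : (0 : ℚ) ≤ n := Nat.cast_nonneg n
        linarith
    · refine Set.infinite_of_injective_forall_mem (f := fun n : ℕ =>
        e.symm ((M' : ℚ) - n - 1 / 2)) ?_ ?_
      · intro n n' h
        have h1 := e.symm.injective h
        have h2 : (n : ℚ) = n' := by linarith
        exact_mod_cast h2
      · intro n
        have h1 : ¬ Act s ((M' : ℚ) - n - 1 / 2) := by
          refine not_act (m := M' - n - 1) ?_ ?_
          · push_cast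
            linarith
          · push_cast
            linarith
        refine Or.inl ?_
        rw [Equiv.apply_symm_apply, (PJ_not h1).1]
        have : (0 : ℚ) ≤ n := Nat.cast_nonneg n
        linarith
  · intro i j
    have h1 : Continuous fun s : ℕ → Bool => (s (bl (e i)), s (bl (e j))) := by fun_prop
    exact (isClopen_discrete {v : Bool × Bool | pl v.1 (e i) < pl v.2 (e j) ∨
      (pl v.1 (e i) = pl v.2 (e j) ∧ jx v.1 (e i) < jx v.2 (e j))}).preimage h1
  · intro s t g hg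
    let g' : Equiv.Perm ℚ := (e.symm.trans g).trans e
    have h1 : ∀ a b, a ≠ b → (Ad s a b ↔ Ad t (g' a) (g' b)) := by
      intro a b hab
      have h2 := hg (e.symm a) (e.symm b) fun h => hab (e.symm.injective h)
      rw [hadj, hadj, Equiv.apply_symm_apply, Equiv.apply_symm_apply] at h2
      exact h2
    have h2 : ∀ a b, a ≠ b → (Ad t a b ↔ Ad s (g'.symm a) (g'.symm b)) := by
      intro a b hab
      have h3 := h1 (g'.symm a) (g'.symm b) fun h => hab (g'.symm.injective h)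
      rw [Equiv.apply_symm_apply, Equiv.apply_symm_apply] at h3
      exact h3.symm
    funext i
    rw [Bool.eq_iff_iff, ← cmp_iff, ← cmp_iff]
    exact ⟨cmp_of_iso g' h1, cmp_of_iso g'.symm h2⟩

end Pool.Agent.H65.CXS
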